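import Pool.Agent.TH272.Shr.Heavy
import Pool.Agent.TH272.Shr.OfFml
import Pool.Agent.TH457.Ary.OuMv
import Pool.Agent.Y638.RF.Xor

set_option autoImplicit false

/-! # Products `u_iᵀ M v_i`: circuits in which shared gates depend on few pairs -/

namespace Pool.Agent.Q330.LS.OM

open Finset Pool.Agent.TH697.Form Pool.Agent.TH697.Row Pool.Agent.TH272.Shr
open Pool.Agent.TH457.Ary (Queries queries_of_update)

variable {n : ℕ}

/-- the items which are pairs of vectors -/
def pairs (n : ℕ) : Finset (Option (Fin n)) := univ.map Function.Embedding.some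

theorem card_pairs : (pairs n).card = n := by
  rw [pairs, card_map, card_univ, Fintype.card_fin]

/-- the arithmetic -/
theorem arith {n c w E X : ℝ} (hn : 5 ≤ n) (hc : 1 ≤ c) (hw : 1 ≤ w) (hE : 0 ≤ E)
    (h : n * (49 / 600 * n ^ 2 - 1) ≤ w * (4 + (w - 1) * c) * E + 1 * (4 * X + 0)) :
    n ^ 3 ≤ 100 * (c * w ^ 2 * E + X) := by
  have h1 : n ^ 2 / 25 ≤ 49 / 600 * n ^ 2 - 1 := by nlinarith
  have h2 : n * (n ^ 2 / 25) ≤ n * (49 / 600 * n ^ 2 - 1) :=
    mul_le_mul_of_nonneg_left h1 (by linarith)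
  have h3 : w * (4 + (w - 1) * c) ≤ 4 * c * w ^ 2 := by
    have h0 : 0 ≤ (w - 1) * c := mul_nonneg (by linarith) (by linarith)
    have h4 : 4 + (w - 1) * c ≤ 4 * c * w := by nlinarith
    calc w * (4 + (w - 1) * c) ≤ w * (4 * c * w) :=
          mul_le_mul_of_nonneg_left h4 (by linarith)
      _ = _ := by ring
  have h4 := mul_le_mul_of_nonneg_right h3 hE
  nlinarith

theorem bound_of {c w : ℕ} (hn : 5 ≤ n) (hc : 1 ≤ c) (hw : 1 ≤ w)
    {D : Option (Fin n) → Type} {f : (∀ i, D i) → Bool}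
    (hQ : ∀ i : Fin n, Queries (Fin n × Fin n) id (fun _ => True) f (some i))
    {Ω : Type} [Fintype Ω] (μ : Ω → ℝ) (hμ : IsProb μ)
    (C : Ω → Circuit (Option (Fin n)) D w (2 ^ c))
    (hC : ApproximatesOn μ (fun ω => (C ω).eval) (fun _ => True) f) (d : ℕ) :
    (n : ℝ) ^ 3 ≤ 100 * (c * w ^ 2 * mean μ (fun ω => (C ω).leaves) +
      (d * (mean μ (fun ω => (C ω).refs) + mean μ (fun ω => (C ω).shared)) +
        n * (mean μ (fun ω => (C ω).heavyRefs (pairs n) d) +
          mean μ (fun ω => (C ω).heavyGates (pairs n) d)))) := by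
  classical
  have h := circuit_heavy μ hμ C (fun _ => True) f hC Nat.one_le_two_pow hw (pairs n) d
    (T := Fin n × Fin n) (by
      intro a ha
      rw [pairs, mem_map] at ha
      obtain ⟨i, -, rfl⟩ := ha
      exact hQ i)
  rw [card_pairs, Pool.Agent.TH457.Ary.OuMv.card_T, Nat.cast_pow, Nat.cast_ofNat,
    Pool.Agent.TH457.Ary.OuMv.logb_two_pow'] at h
  exact arith (by exact_mod_cast hn) (by exact_mod_cast hc) (by exact_mod_cast hw)
    (mean_nonneg μ hμ _) h

theorem queries_xor (i : Fin n) :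
    Queries (Fin n × Fin n) id (fun _ => True) (Pool.Agent.Y638.RF.Xor.product n) (some i) :=
  queries_of_update (fun _ => True) (Pool.Agent.Y638.RF.Xor.product n) (some i) (fun _ => 0)
    (fun t _ => Pool.Agent.Y638.RF.Xor.ask t) Pool.Agent.Y638.RF.Xor.enc
    (fun _ _ _ _ => rfl) (fun _ _ => trivial)
    (fun t z => Pool.Agent.Y638.RF.Xor.product_enc i t z)

end Pool.Agent.Q330.LS.OM
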